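import Pool.Agent.MP_cce4c9_lc.H87.All

/-!
For every fixed degree bound `d`, the size of the value set of a polynomial of degree at most `d`
over a finite field of arbitrary characteristic is computed by a deterministic Turing machine in
time polynomial in the length of the input.
-/

set_option autoImplicit false

open Polynomial

namespace Pool.Agent.Results.MP_cce4c9_lc.ValueSetCount

/-- The polynomial over `ZMod p` with coefficient list `l` (constant term first). -/
noncomputable def polyOf (p : ℕ) (l : List ℕ) : (ZMod p)[X] :=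
  ∑ i ∈ Finset.range l.length, C (l.getD i 0 : ZMod p) * X ^ i

/-- The polynomial over the field `F_p[t] / (g)` whose `i`-th coefficient is the class of the
polynomial in `t` with coefficient list `cs[i]`. -/
noncomputable def inputPoly (p : ℕ) (g : List ℕ) (cs : List (List ℕ)) :
    (AdjoinRoot (polyOf p g))[X] :=
  ∑ i ∈ Finset.range cs.length, C (AdjoinRoot.mk (polyOf p g) (polyOf p (cs.getD i []))) * X ^ i

theorem result (d : ℕ) :
    ∃ A : ℕ × List ℕ × List (List ℕ) → ℕ, N68a2faeb.IsPolyTime A ∧
      ∀ (p : ℕ) (g : List ℕ) (cs : List (List ℕ)), p.Prime → Irreducible (polyOf p g) →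
        cs.length ≤ d + 1 →
        A (p, g, cs) = (Set.range fun a => (inputPoly p g cs).eval a).ncard := by
  obtain ⟨A, hA, H⟩ := Pool.Agent.MP_cce4c9_lc.H87.main_gen Pool.Agent.MP_cce4c9_lc.H84.mon_
    Pool.Agent.MP_cce4c9_lc.H59.pt2 Pool.Agent.MP_cce4c9_lc.H87.main_all d
  refine ⟨A, hA.isPolyTime, fun p g cs hp hg hcs => ?_⟩
  rw [H p g cs hp hg hcs]
  congr 2
  funext a
  simp only [inputPoly, eval_finset_sum, eval_mul, eval_C, eval_pow, eval_X]
  rfl

end Pool.Agent.Results.MP_cce4c9_lc.ValueSetCount
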